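import Mathlib
import Pool.Agent.W355.FR.Stm

/-!
# FR-CNL : lower bound for the conductor for almost all members
-/

set_option autoImplicit false

namespace Pool.Agent.W597.FR

open Polynomial Pool.Agent.W355.FR

theorem hv_add (D : ℕ) (f g : ℤ[X]) (a b : ℤ) : hv D (f + g) a b = hv D f a b + hv D g a b := by
  unfold hv
  rw [← Finset.sum_add_distrib]
  apply Finset.sum_congr rfl
  intro i _
  rw [coeff_add]
  ring

theorem hv_C (D : ℕ) (c : ℤ) (f : ℤ[X]) (a b : ℤ) : hv D (C c * f) a b = c * hv D f a b := by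
  unfold hv
  rw [Finset.mul_sum]
  apply Finset.sum_congr rfl
  intro i _
  rw [coeff_C_mul]
  ring

theorem hv_disc (hm : P_HVM) (k : ℕ) (A B : ℤ[X]) (hA : A.natDegree ≤ 4 * k)
    (hB : B.natDegree ≤ 6 * k) (a b : ℤ) :
    hv (12 * k) (4 * A ^ 3 + 27 * B ^ 2) a b =
      4 * (hv (4 * k) A a b) ^ 3 + 27 * (hv (6 * k) B a b) ^ 2 := by
  have h4 : (4 : ℤ[X]) = C 4 := rfl
  have h27 : (27 : ℤ[X]) = C 27 := rfl
  rw [hv_add, h4, h27, hv_C, hv_C]
  have e1 : 12 * k = 6 * k + 6 * k := by ring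
  have e2 : 12 * k = 4 * k + 4 * k + 4 * k := by ring
  have h1 : hv (12 * k) (B ^ 2) a b = (hv (6 * k) B a b) ^ 2 := by
    rw [e1, pow_two B, hm _ _ _ _ hB hB, pow_two]
  have h2 : hv (12 * k) (A ^ 3) a b = (hv (4 * k) A a b) ^ 3 := by
    rw [e2, pow_succ A 2, pow_two A, hm _ _ _ _ (natDegree_mul_le.trans (add_le_add hA hA)) hA,
      hm _ _ _ _ hA hA]
    ring
  rw [h1, h2]

theorem log_cond6 (a b : ℤ) : Real.log (cond6 a b) =
    ∑ p ∈ (4 * a ^ 3 + 27 * b ^ 2).natAbs.primeFactors.filter (fun p => 5 ≤ p),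
      (condExp p a b : ℝ) * Real.log p := by
  unfold cond6
  rw [Nat.cast_prod, Real.log_prod]
  · apply Finset.sum_congr rfl
    intro p _
    rw [Nat.cast_pow, Real.log_pow]
  · intro p hp
    have hp1 : p ≠ 0 := (Nat.prime_of_mem_primeFactors (Finset.mem_filter.1 hp).1).ne_zero
    positivity

theorem wt_le (P A : ℤ[X]) : wt P A ≤ 2 := by
  unfold wt
  split_ifs <;> omega

theorem main : P_CNL := by
  intro hm hrad hlc hres hzer k A B hA hB hA0 hB0 hD S hS hcop ε δ hε hδ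
  classical
  -- local constants
  have hL : ∀ P : ℤ[X], ∃ z : ℕ, P ∈ S → ∀ p : ℕ, p.Prime → z < p → ∀ a b : ℤ,
      Int.gcd a b = 1 → (p : ℤ) ∣ hv P.natDegree P a b → ¬ (p : ℤ) ^ 2 ∣ hv P.natDegree P a b →
      (p : ℤ) ∣ 4 * (hv (4 * k) A a b) ^ 3 + 27 * (hv (6 * k) B a b) ^ 2 ∧
      wt P A ≤ condExp p (hv (4 * k) A a b) (hv (6 * k) B a b) := by
    intro P
    by_cases hP : P ∈ S
    · obtain ⟨h1, h2, _, h4, h5⟩ := hS P hP
      obtain ⟨z, hz⟩ := hlc k A B P hA hB hA0 hB0 h1 h2 h4 h5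
      exact ⟨z, fun _ => hz⟩
    · exact ⟨0, fun h => absurd h hP⟩
  choose zL hzL using hL
  have hR : ∀ P Q : ℤ[X], ∃ z : ℕ, P ∈ S → Q ∈ S → P ≠ Q → ∀ p : ℕ, p.Prime → z < p → ∀ a b : ℤ,
      Int.gcd a b = 1 → (p : ℤ) ∣ hv P.natDegree P a b → ¬ (p : ℤ) ∣ hv Q.natDegree Q a b := by
    intro P Q
    by_cases hP : P ∈ S ∧ Q ∈ S ∧ P ≠ Q
    · obtain ⟨h1, h2, h3⟩ := hP
      obtain ⟨z, hz⟩ := hres hm Q.natDegree P Q (hS P h1).2.1 le_rfl (hcop P h1 Q h2 h3)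
      exact ⟨z, fun _ _ _ => hz⟩
    · exact ⟨0, fun h1 h2 h3 => absurd ⟨h1, h2, h3⟩ hP⟩
  choose zR hzR using hR
  set z1 : ℕ := 5 + ∑ P ∈ S, zL P + ∑ P ∈ S, ∑ Q ∈ S, zR P Q with hz1
  have hz1L : ∀ P ∈ S, zL P ≤ z1 := by
    intro P hP
    have := Finset.single_le_sum (f := zL) (fun i _ => Nat.zero_le _) hP
    omega
  have hz1R : ∀ P ∈ S, ∀ Q ∈ S, zR P Q ≤ z1 := by
    intro P hP Q hQ
    have h1 := Finset.single_le_sum (f := fun Q => zR P Q) (fun i _ => Nat.zero_le _) hQ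
    have h2 := Finset.single_le_sum (f := fun P => ∑ Q ∈ S, zR P Q) (fun i _ => Nat.zero_le _) hP
    omega
  set n : ℕ := S.card with hn
  set ε' : ℝ := ε / (2 * n + 2) with hε'
  set δ' : ℝ := δ / (n + 1) with hδ'
  have hε'0 : 0 < ε' := by positivity
  have hδ'0 : 0 < δ' := by positivity
  have hRad : ∀ P : ℤ[X], ∃ z H₀ : ℕ, z1 ≤ z ∧ (P ∈ S → ∀ H : ℕ, H₀ ≤ H →
      ∀ s : Finset (ℤ × ℤ), s ⊆ box H →
      (∀ x ∈ s, ¬ ((∀ p : ℕ, p.Prime → z < p → ¬ (p : ℤ) ^ 2 ∣ hv P.natDegree P x.1 x.2) ∧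
        hv P.natDegree P x.1 x.2 ≠ 0 ∧
        ((P.natDegree : ℝ) - ε') * Real.log H ≤
          ∑ p ∈ (hv P.natDegree P x.1 x.2).natAbs.primeFactors.filter (fun p => z < p),
            Real.log p)) →
      (s.card : ℝ) ≤ δ' * (H : ℝ) ^ 2) := by
    intro P
    by_cases hP : P ∈ S
    · obtain ⟨h1, h2, h3, h4, h5⟩ := hS P hP
      obtain ⟨z, hz, H₀, hH₀⟩ := hrad P h1 h2 h3 ε' δ' hε'0 hδ'0 z1
      exact ⟨z, H₀, hz, fun _ => hH₀⟩
    · exact ⟨z1, 0, le_rfl, fun h => absurd h hP⟩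
  choose zP HP hzP hHP using hRad
  obtain ⟨HZ, hHZ⟩ := hzer (12 * k) (4 * A ^ 3 + 27 * B ^ 2) hD (by
    have h4 : (4 : ℤ[X]) = C 4 := rfl
    have h27 : (27 : ℤ[X]) = C 27 := rfl
    apply (natDegree_add_le _ _).trans
    apply max_le
    · rw [h4]
      apply (natDegree_C_mul_le _ _).trans
      apply natDegree_pow_le.trans
      omega
    · rw [h27]
      apply (natDegree_C_mul_le _ _).trans
      apply natDegree_pow_le.trans
      omega) δ' hδ'0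
  refine ⟨1 + HZ + ∑ P ∈ S, HP P, ?_⟩
  intro H hH s hs hbad
  have hH1 : 1 ≤ H := by omega
  have hHZ' : HZ ≤ H := by omega
  have hHP' : ∀ P ∈ S, HP P ≤ H := by
    intro P hP
    have := Finset.single_le_sum (f := HP) (fun i _ => Nat.zero_le _) hP
    omega
  have hlogH : 0 ≤ Real.log H := Real.log_nonneg (by exact_mod_cast hH1)
  -- exceptional sets
  let Good : ℤ[X] → ℤ × ℤ → Prop := fun P x =>
    (∀ p : ℕ, p.Prime → zP P < p → ¬ (p : ℤ) ^ 2 ∣ hv P.natDegree P x.1 x.2) ∧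
        hv P.natDegree P x.1 x.2 ≠ 0 ∧
        ((P.natDegree : ℝ) - ε') * Real.log H ≤
          ∑ p ∈ (hv P.natDegree P x.1 x.2).natAbs.primeFactors.filter (fun p => zP P < p),
            Real.log p
  let E : ℤ[X] → Finset (ℤ × ℤ) := fun P => s.filter (fun x => ¬ Good P x)
  let Z : Finset (ℤ × ℤ) := s.filter (fun x => hv (12 * k) (4 * A ^ 3 + 27 * B ^ 2) x.1 x.2 = 0)
  have hE : ∀ P ∈ S, ((E P).card : ℝ) ≤ δ' * (H : ℝ) ^ 2 := by
    intro P hP
    apply hHP P hP H (hHP' P hP) (E P) ((Finset.filter_subset _ _).trans hs)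
    intro x hx
    exact (Finset.mem_filter.1 hx).2
  have hZ : ((Z.card : ℕ) : ℝ) ≤ δ' * (H : ℝ) ^ 2 := by
    apply hHZ H hHZ' Z ((Finset.filter_subset _ _).trans hs)
    intro x hx
    exact (Finset.mem_filter.1 hx).2
  have hcover : s ⊆ S.biUnion E ∪ Z := by
    intro x hx
    by_contra hnot
    rw [Finset.mem_union, not_or] at hnot
    obtain ⟨hn1, hn2⟩ := hnot
    have hgood : ∀ P ∈ S, Good P x := by
      intro P hP
      by_contra hg
      exact hn1 (Finset.mem_biUnion.2 ⟨P, hP, Finset.mem_filter.2 ⟨hx, hg⟩⟩)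
    have hd0 : 4 * (hv (4 * k) A x.1 x.2) ^ 3 + 27 * (hv (6 * k) B x.1 x.2) ^ 2 ≠ 0 := by
      intro h0
      apply hn2
      rw [Finset.mem_filter]
      exact ⟨hx, by rw [hv_disc hm k A B hA hB, h0]⟩
    apply hbad x hx
    refine ⟨?_, hd0⟩
    have hgcd : Int.gcd x.1 x.2 = 1 := (Finset.mem_filter.1 (hs hx)).2
    rw [log_cond6]
    set a' := hv (4 * k) A x.1 x.2 with ha'
    set b' := hv (6 * k) B x.1 x.2 with hb'
    let PI : ℤ[X] → Finset ℕ := fun P =>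
      (hv P.natDegree P x.1 x.2).natAbs.primeFactors.filter (fun p => zP P < p)
    have hPI : ∀ P ∈ S, ∀ p ∈ PI P, p.Prime ∧ zP P < p ∧ (p : ℤ) ∣ hv P.natDegree P x.1 x.2 ∧
        (p : ℤ) ∣ 4 * a' ^ 3 + 27 * b' ^ 2 ∧ wt P A ≤ condExp p a' b' := by
      intro P hP p hp
      obtain ⟨h1, h2⟩ := Finset.mem_filter.1 hp
      have h3 := Nat.prime_of_mem_primeFactors h1
      have h4 : (p : ℤ) ∣ hv P.natDegree P x.1 x.2 :=
        Int.natCast_dvd.2 (Nat.dvd_of_mem_primeFactors h1)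
      have h5 := hzL P hP p h3 (lt_of_le_of_lt ((hz1L P hP).trans (hzP P)) h2) x.1 x.2 hgcd h4
        ((hgood P hP).1 p h3 h2)
      exact ⟨h3, h2, h4, h5.1, h5.2⟩
    have hsub : S.biUnion PI ⊆
        (4 * a' ^ 3 + 27 * b' ^ 2).natAbs.primeFactors.filter (fun p => 5 ≤ p) := by
      intro p hp
      obtain ⟨P, hP, hp1⟩ := Finset.mem_biUnion.1 hp
      obtain ⟨h1, h2, _, h4, _⟩ := hPI P hP p hp1
      rw [Finset.mem_filter, Nat.mem_primeFactors]
      refine ⟨⟨h1, Int.natCast_dvd.1 h4, Int.natAbs_ne_zero.2 hd0⟩, ?_⟩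
      have := hzP P
      omega
    have hdisj : Set.PairwiseDisjoint (S : Set ℤ[X]) PI := by
      intro P hP Q hQ hPQ
      rw [Function.onFun, Finset.disjoint_left]
      intro p hp1 hp2
      obtain ⟨h1, h2, h3, _, _⟩ := hPI P hP p hp1
      obtain ⟨_, _, h4, _, _⟩ := hPI Q hQ p hp2
      exact hzR P Q hP hQ hPQ p h1 (lt_of_le_of_lt ((hz1R P hP Q hQ).trans (hzP P)) h2)
        x.1 x.2 hgcd h3 h4
    have hstep1 : ∑ p ∈ S.biUnion PI, (condExp p a' b' : ℝ) * Real.log p ≤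
        ∑ p ∈ (4 * a' ^ 3 + 27 * b' ^ 2).natAbs.primeFactors.filter (fun p => 5 ≤ p),
          (condExp p a' b' : ℝ) * Real.log p := by
      apply Finset.sum_le_sum_of_subset_of_nonneg hsub
      intro p _ _
      exact mul_nonneg (Nat.cast_nonneg _) (Real.log_natCast_nonneg p)
    refine le_trans ?_ hstep1
    rw [Finset.sum_biUnion hdisj]
    have hstep2 : ∀ P ∈ S, (wt P A : ℝ) * (((P.natDegree : ℝ) - ε') * Real.log H) ≤
        ∑ p ∈ PI P, (condExp p a' b' : ℝ) * Real.log p := by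
      intro P hP
      calc (wt P A : ℝ) * (((P.natDegree : ℝ) - ε') * Real.log H)
          ≤ (wt P A : ℝ) * ∑ p ∈ PI P, Real.log p :=
            mul_le_mul_of_nonneg_left (hgood P hP).2.2 (Nat.cast_nonneg _)
        _ = ∑ p ∈ PI P, (wt P A : ℝ) * Real.log p := by rw [Finset.mul_sum]
        _ ≤ _ := by
            apply Finset.sum_le_sum
            intro p hp
            apply mul_le_mul_of_nonneg_right _ (Real.log_natCast_nonneg p)
            exact_mod_cast (hPI P hP p hp).2.2.2.2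
    refine le_trans ?_ (Finset.sum_le_sum hstep2)
    have hstep3 : ∑ P ∈ S, (wt P A : ℝ) * (((P.natDegree : ℝ) - ε') * Real.log H) =
        ((((∑ P ∈ S, wt P A * P.natDegree : ℕ) : ℝ)) - ε' * ∑ P ∈ S, (wt P A : ℝ)) *
          Real.log H := by
      push_cast
      rw [Finset.mul_sum, ← Finset.sum_sub_distrib, Finset.sum_mul]
      apply Finset.sum_congr rfl
      intro P _
      ring
    rw [hstep3]
    apply mul_le_mul_of_nonneg_right _ hlogH
    have hw : ∑ P ∈ S, (wt P A : ℝ) ≤ 2 * n := by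
      calc ∑ P ∈ S, (wt P A : ℝ) ≤ ∑ P ∈ S, (2 : ℝ) :=
            Finset.sum_le_sum (fun P _ => by exact_mod_cast wt_le P A)
        _ = 2 * n := by rw [Finset.sum_const, nsmul_eq_mul]; ring
    have hw2 : ε' * ∑ P ∈ S, (wt P A : ℝ) ≤ ε := by
      calc ε' * ∑ P ∈ S, (wt P A : ℝ) ≤ ε' * (2 * n) := mul_le_mul_of_nonneg_left hw hε'0.le
        _ ≤ ε' * (2 * n + 2) := mul_le_mul_of_nonneg_left (by linarith) hε'0.le
        _ = ε := by rw [hε']; field_simp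
    linarith
  have hcard : (s.card : ℝ) ≤ (∑ P ∈ S, ((E P).card : ℝ)) + (Z.card : ℝ) := by
    have h1 := Finset.card_le_card hcover
    have h2 := Finset.card_union_le (S.biUnion E) Z
    have h3 := Finset.card_biUnion_le (s := S) (t := E)
    have h4 : s.card ≤ (∑ P ∈ S, (E P).card) + Z.card := by omega
    exact_mod_cast h4
  have hsum : ∑ P ∈ S, ((E P).card : ℝ) ≤ n * (δ' * (H : ℝ) ^ 2) := by
    calc ∑ P ∈ S, ((E P).card : ℝ) ≤ ∑ P ∈ S, δ' * (H : ℝ) ^ 2 := Finset.sum_le_sum hE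
      _ = _ := by rw [Finset.sum_const, nsmul_eq_mul]
  have hfin : (n : ℝ) * (δ' * (H : ℝ) ^ 2) + δ' * (H : ℝ) ^ 2 = δ * (H : ℝ) ^ 2 := by
    rw [hδ']
    field_simp
  linarith

end Pool.Agent.W597.FR
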